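import Pool.Agent.H84.RIG.Quad

/-!
# Affine maps that preserve a conic and a pencil: they are isometries
-/

set_option autoImplicit false

namespace Pool.Agent.H84.RIG

open Finset

/-- The linear map with matrix `(m₁₁, m₁₂; m₂₁, m₂₂)`. -/
def lm (m₁₁ m₁₂ m₂₁ m₂₂ : ℝ) (y : ℂ) : ℂ := ⟨m₁₁ * y.re + m₁₂ * y.im, m₂₁ * y.re + m₂₂ * y.im⟩

lemma lm_re (m₁₁ m₁₂ m₂₁ m₂₂ : ℝ) (y : ℂ) :
    (lm m₁₁ m₁₂ m₂₁ m₂₂ y).re = m₁₁ * y.re + m₁₂ * y.im := rfl

lemma lm_im (m₁₁ m₁₂ m₂₁ m₂₂ : ℝ) (y : ℂ) :
    (lm m₁₁ m₁₂ m₂₁ m₂₂ y).im = m₂₁ * y.re + m₂₂ * y.im := rfl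

/-- If `q (f y) = q y` and `|f y|² = |y|² - q y` for all `y`, then `q ≤ 0`. -/
lemma nonpos_of_iterate (f : ℂ → ℂ) (q : ℂ → ℝ) (h1 : ∀ y, q (f y) = q y)
    (h2 : ∀ y, Complex.normSq (f y) = Complex.normSq y - q y) (y : ℂ) : q y ≤ 0 := by
  have h : ∀ n : ℕ, q (f^[n] y) = q y ∧
      Complex.normSq (f^[n] y) = Complex.normSq y - n * q y := by
    intro n
    induction n with
    | zero => simp
    | succ n ih =>
      rw [Function.iterate_succ_apply', h1, h2, ih.1, ih.2]
      refine ⟨rfl, ?_⟩
      push_cast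
      ring
  by_contra hc
  push Not at hc
  obtain ⟨n, hn⟩ := exists_nat_gt (Complex.normSq y / q y)
  rw [div_lt_iff₀ hc] at hn
  have h3 := (h n).2
  have h4 := Complex.normSq_nonneg (f^[n] y)
  linarith

variable {A B C D E F m₁₁ m₁₂ m₂₁ m₂₂ lam μ : ℝ}

/-- The recurrence argument. -/
lemma form_zero (hdet : m₁₁ * m₂₂ - m₁₂ * m₂₁ ≠ 0)
    (hi : ∀ y, Complex.normSq (lm m₁₁ m₁₂ m₂₁ m₂₂ y) = Complex.normSq y - lam * qf A B C y)
    (hii : ∀ y, qf A B C (lm m₁₁ m₁₂ m₂₁ m₂₂ y) = qf A B C y) (y : ℂ) :
    lam * qf A B C y = 0 := by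
  set d := m₁₁ * m₂₂ - m₁₂ * m₂₁ with hd
  have hinv : ∀ y, lm m₁₁ m₁₂ m₂₁ m₂₂ (lm (m₂₂ / d) (-m₁₂ / d) (-m₂₁ / d) (m₁₁ / d) y) = y := by
    intro y
    apply Complex.ext
    · simp only [lm_re, lm_im]
      field_simp
      rw [hd]
      ring
    · simp only [lm_re, lm_im]
      field_simp
      rw [hd]
      ring
  have h1 : lam * qf A B C y ≤ 0 := by
    apply nonpos_of_iterate (lm m₁₁ m₁₂ m₂₁ m₂₂) (fun y => lam * qf A B C y)
    · intro y
      simp only [hii]
    · intro y
      exact hi y
  have h2 : -(lam * qf A B C y) ≤ 0 := by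
    apply nonpos_of_iterate (lm (m₂₂ / d) (-m₁₂ / d) (-m₂₁ / d) (m₁₁ / d))
      (fun y => -(lam * qf A B C y))
    · intro y
      have := hii (lm (m₂₂ / d) (-m₁₂ / d) (-m₂₁ / d) (m₁₁ / d) y)
      rw [hinv] at this
      simp only [← this]
    · intro y
      have e1 := hii (lm (m₂₂ / d) (-m₁₂ / d) (-m₂₁ / d) (m₁₁ / d) y)
      have e2 := hi (lm (m₂₂ / d) (-m₁₂ / d) (-m₂₁ / d) (m₁₁ / d) y)
      rw [hinv] at e1 e2
      rw [← e1] at e2
      linarith
  linarith

/-- The multiplier is one. -/
lemma mu_one {Y : Finset ℂ} (hnc : NC Y) (h5 : 5 ≤ Y.card)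
    (hY : ∀ y ∈ Y, qd A B C D E F y = 0) (h0 : ¬ (A = 0 ∧ B = 0 ∧ C = 0))
    (hdet : m₁₁ * m₂₂ - m₁₂ * m₂₁ ≠ 0) (c : ℂ)
    (hi : ∀ y, Complex.normSq (lm m₁₁ m₁₂ m₂₁ m₂₂ y) = Complex.normSq y - lam * qf A B C y)
    (hT : ∀ y, qd A B C D E F (lm m₁₁ m₁₂ m₂₁ m₂₂ y + c) = μ * qd A B C D E F y) : μ = 1 := by
  classical
  set M := lm m₁₁ m₁₂ m₂₁ m₂₂ with hM
  set d := m₁₁ * m₂₂ - m₁₂ * m₂₁ with hd
  have hinv : ∀ y, M (lm (m₂₂ / d) (-m₁₂ / d) (-m₂₁ / d) (m₁₁ / d) y) = y := by
    intro y
    rw [hM]
    apply Complex.ext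
    · simp only [lm_re, lm_im]
      field_simp
      rw [hd]
      ring
    · simp only [lm_re, lm_im]
      field_simp
      rw [hd]
      ring
  have hMadd : ∀ (y w : ℂ) (s : ℝ), M (y + s * w) = M y + s * M w := by
    intro y w s
    rw [hM]
    apply Complex.ext
    · simp only [lm_re, lm_im, Complex.add_re, Complex.add_im, Complex.mul_re, Complex.mul_im,
        Complex.ofReal_re, Complex.ofReal_im]
      ring
    · simp only [lm_re, lm_im, Complex.add_re, Complex.add_im, Complex.mul_re, Complex.mul_im,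
        Complex.ofReal_re, Complex.ofReal_im]
      ring
  -- the polar form
  have hqd : ∀ (y w : ℂ) (s : ℝ), qd A B C D E F (y + s * w) = qd A B C D E F y
      + s * ((2 * A * y.re + B * y.im + D) * w.re + (B * y.re + 2 * C * y.im + E) * w.im)
      + s ^ 2 * qf A B C w := by
    intro y w s
    simp only [qd, qf, Complex.add_re, Complex.add_im, Complex.mul_re, Complex.mul_im,
      Complex.ofReal_re, Complex.ofReal_im]
    ring
  -- first and second order terms of the identity
  have hcomp : ∀ (y w : ℂ),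
      ((2 * A * (M y + c).re + B * (M y + c).im + D) * (M w).re
        + (B * (M y + c).re + 2 * C * (M y + c).im + E) * (M w).im
        = μ * ((2 * A * y.re + B * y.im + D) * w.re + (B * y.re + 2 * C * y.im + E) * w.im)) ∧
      qf A B C (M w) = μ * qf A B C w := by
    intro y w
    have h : ∀ s : ℝ, qd A B C D E F (M y + c)
        + s * ((2 * A * (M y + c).re + B * (M y + c).im + D) * (M w).re
          + (B * (M y + c).re + 2 * C * (M y + c).im + E) * (M w).im)
        + s ^ 2 * qf A B C (M w)
        = μ * (qd A B C D E F y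
          + s * ((2 * A * y.re + B * y.im + D) * w.re + (B * y.re + 2 * C * y.im + E) * w.im)
          + s ^ 2 * qf A B C w) := by
      intro s
      have h1 := hT (y + s * w)
      have h2 : M (y + s * w) + c = (M y + c) + s * M w := by rw [hMadd]; ring
      rw [h2, hqd, hqd] at h1
      exact h1
    have h3 := h 1
    have h4 := h (-1)
    have h5 := hT y
    constructor <;> linarith
  by_cases hΔ : 4 * A * C - B ^ 2 = 0
  · -- a parabola: a null direction
    obtain ⟨w, hw0, hw1, hw2⟩ : ∃ w : ℂ, w ≠ 0 ∧ 2 * A * w.re + B * w.im = 0 ∧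
        B * w.re + 2 * C * w.im = 0 := by
      by_cases hAB : A = 0 ∧ B = 0
      · refine ⟨1, one_ne_zero, ?_, ?_⟩
        · simp [hAB.1]
        · simp [hAB.2]
      · refine ⟨⟨-B, 2 * A⟩, ?_, ?_, ?_⟩
        · intro h
          apply hAB
          have h1 := congrArg Complex.re h
          have h2 := congrArg Complex.im h
          simp only [Complex.zero_re, Complex.zero_im] at h1 h2
          exact ⟨by linarith, by linarith⟩
        · simp only
          ring
        · simp only
          linarith
    have hqw : qf A B C w = 0 := by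
      have : 2 * qf A B C w = (2 * A * w.re + B * w.im) * w.re + (B * w.re + 2 * C * w.im) * w.im := by
        simp only [qf]; ring
      rw [hw1, hw2] at this
      linarith
    set ew := D * w.re + E * w.im with hew
    have hgrad : ∀ y : ℂ, (2 * A * y.re + B * y.im + D) * w.re
        + (B * y.re + 2 * C * y.im + E) * w.im = ew := by
      intro y
      rw [hew]
      linear_combination y.re * hw1 + y.im * hw2
    have hew0 : ew ≠ 0 := by
      intro h
      have hne : Y.Nonempty := Finset.card_pos.1 (by omega)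
      obtain ⟨y0, hy0⟩ := hne
      have := no_line hnc h5 hY hw0 (z := y0) (by
        intro s
        rw [hqd, hY y0 hy0, hgrad, h, hqw]
        ring)
      exact h0 ⟨this.1, this.2.1, this.2.2.1⟩
    -- `M w` is in the null space
    have hpol : ∀ v : ℂ, (2 * A * (M w).re + B * (M w).im) * (M v).re
        + (B * (M w).re + 2 * C * (M w).im) * (M v).im = 0 := by
      intro v
      have h1 := (hcomp 0 (w + (1 : ℝ) * v)).2
      have h2 := (hcomp 0 w).2
      have h3 := (hcomp 0 v).2
      rw [hMadd] at h1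
      simp only [qf, Complex.add_re, Complex.add_im, Complex.mul_re, Complex.mul_im,
        Complex.ofReal_re, Complex.ofReal_im, one_mul, zero_mul, sub_zero, add_zero] at h1 h2 h3
      linear_combination h1 - h2 - h3 + μ * (v.re * hw1 + v.im * hw2)
    have hu : ∀ v : ℂ, (2 * A * (M w).re + B * (M w).im) * v.re
        + (B * (M w).re + 2 * C * (M w).im) * v.im = 0 := by
      intro v
      have := hpol (lm (m₂₂ / d) (-m₁₂ / d) (-m₂₁ / d) (m₁₁ / d) v)
      rwa [hinv] at this
    have hu1 : 2 * A * (M w).re + B * (M w).im = 0 := by simpa using hu 1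
    have hu2 : B * (M w).re + 2 * C * (M w).im = 0 := by simpa using hu Complex.I
    have hcr : (M w).re * w.im - (M w).im * w.re = 0 := by
      by_cases hAB : A = 0 ∧ B = 0
      · have hC : C ≠ 0 := fun h => h0 ⟨hAB.1, hAB.2, h⟩
        have e1 : w.im = 0 := by
          have : 2 * C * w.im = 0 := by rw [hAB.2] at hw2; linarith
          exact (mul_eq_zero.1 this).resolve_left (by simpa using hC)
        have e2 : (M w).im = 0 := by
          have : 2 * C * (M w).im = 0 := by rw [hAB.2] at hu2; linarith
          exact (mul_eq_zero.1 this).resolve_left (by simpa using hC)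
        rw [e1, e2]
        ring
      · have h1 : A * ((M w).re * w.im - (M w).im * w.re) = 0 := by
          linear_combination (w.im / 2) * hu1 - ((M w).im / 2) * hw1
        have h2 : B * ((M w).re * w.im - (M w).im * w.re) = 0 := by
          linear_combination (M w).re * hw1 - w.re * hu1
        by_cases hA : A = 0
        · have hB : B ≠ 0 := fun h => hAB ⟨hA, h⟩
          exact (mul_eq_zero.1 h2).resolve_left hB
        · exact (mul_eq_zero.1 h1).resolve_left hA
    have hN : 0 < w.re ^ 2 + w.im ^ 2 := by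
      have : w.re ≠ 0 ∨ w.im ≠ 0 := by
        by_contra hc
        push Not at hc
        exact hw0 (Complex.ext hc.1 hc.2)
      rcases this with h | h <;> positivity
    set κ := ((M w).re * w.re + (M w).im * w.im) / (w.re ^ 2 + w.im ^ 2) with hκ
    have hκ' : κ * (w.re ^ 2 + w.im ^ 2) = (M w).re * w.re + (M w).im * w.im := by
      rw [hκ]
      field_simp
    have hre : (M w).re = κ * w.re := by
      have : (w.re ^ 2 + w.im ^ 2) * ((M w).re - κ * w.re) = 0 := by
        linear_combination w.im * hcr - w.re * hκ'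
      have := (mul_eq_zero.1 this).resolve_left hN.ne'
      linarith
    have him : (M w).im = κ * w.im := by
      have : (w.re ^ 2 + w.im ^ 2) * ((M w).im - κ * w.im) = 0 := by
        linear_combination -w.re * hcr - w.im * hκ'
      have := (mul_eq_zero.1 this).resolve_left hN.ne'
      linarith
    have hκ2 : κ ^ 2 = 1 := by
      have h1 := hi w
      rw [hqw, Complex.normSq_apply, Complex.normSq_apply, hre, him] at h1
      have : (w.re ^ 2 + w.im ^ 2) * (κ ^ 2 - 1) = 0 := by linear_combination h1
      have := (mul_eq_zero.1 this).resolve_left hN.ne'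
      linarith
    have hκμ : κ = μ := by
      have h1 := (hcomp 0 w).1
      rw [hgrad, hre, him] at h1
      have h2 := hgrad (M 0 + c)
      have : (κ - μ) * ew = 0 := by linear_combination h1 - κ * h2
      have := (mul_eq_zero.1 this).resolve_right hew0
      linarith
    have hμ0 : 0 ≤ μ := by
      by_cases hA : A = 0
      · have hB : B = 0 := by
          rw [hA] at hΔ
          have : B ^ 2 = 0 := by linarith
          exact pow_eq_zero_iff (two_ne_zero) |>.1 this
        have hC : C ≠ 0 := fun h => h0 ⟨hA, hB, h⟩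
        have h1 := (hcomp 0 Complex.I).2
        simp only [qf, hA, hB, Complex.I_re, Complex.I_im] at h1
        have h2 : C * ((M Complex.I).im ^ 2 - μ) = 0 := by linear_combination h1
        have h3 := (mul_eq_zero.1 h2).resolve_left hC
        have h4 := sq_nonneg (M Complex.I).im
        linarith
      · have h1 := (hcomp 0 1).2
        simp only [qf, Complex.one_re, Complex.one_im] at h1
        have h2 : (2 * A * (M 1).re + B * (M 1).im) ^ 2 = 4 * A ^ 2 * μ := by
          linear_combination 4 * A * h1 - (M 1).im ^ 2 * hΔ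
        have h3 := sq_nonneg (2 * A * (M 1).re + B * (M 1).im)
        rw [h2] at h3
        have h4 : 0 < 4 * A ^ 2 := by positivity
        exact nonneg_of_mul_nonneg_right h3 h4
    rw [hκμ] at hκ2
    nlinarith
  · -- a central conic
    set Δ := 4 * A * C - B ^ 2 with hΔd
    set z : ℂ := ⟨(B * E - 2 * C * D) / Δ, (B * D - 2 * A * E) / Δ⟩ with hz
    have hz1 : 2 * A * z.re + B * z.im + D = 0 := by
      rw [hz]
      simp only
      field_simp
      rw [hΔd]
      ring
    have hz2 : B * z.re + 2 * C * z.im + E = 0 := by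
      rw [hz]
      simp only
      field_simp
      rw [hΔd]
      ring
    have hpz : ∀ w : ℂ, ∀ s : ℝ, qd A B C D E F (z + s * w) = qd A B C D E F z + s ^ 2 * qf A B C w := by
      intro w s
      rw [hqd, hz1, hz2]
      ring
    have hf : qd A B C D E F z ≠ 0 := by
      intro h
      obtain ⟨a, ha, haz⟩ : ∃ a ∈ Y, a ≠ z := by
        by_contra hc
        push Not at hc
        have : Y ⊆ {z} := fun a ha => by simpa using hc a ha
        have := Finset.card_le_card this
        rw [Finset.card_singleton] at this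
        omega
      have he : a - z ≠ 0 := sub_ne_zero.2 haz
      have h1 := hpz (a - z) 1
      have h2 : z + ((1 : ℝ) : ℂ) * (a - z) = a := by push_cast; ring
      rw [h2, hY a ha, h] at h1
      have := no_line hnc h5 hY he (z := z) (by
        intro s
        rw [hpz, h]
        have : qf A B C (a - z) = 0 := by linarith
        rw [this]
        ring)
      exact h0 ⟨this.1, this.2.1, this.2.2.1⟩
    have hg : ∀ v : ℂ, (2 * A * (M z + c).re + B * (M z + c).im + D) * v.re
        + (B * (M z + c).re + 2 * C * (M z + c).im + E) * v.im = 0 := by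
      intro v
      have h1 := (hcomp z (lm (m₂₂ / d) (-m₁₂ / d) (-m₂₁ / d) (m₁₁ / d) v)).1
      rw [hinv, hz1, hz2] at h1
      linarith
    have hg1 : 2 * A * (M z + c).re + B * (M z + c).im + D = 0 := by simpa using hg 1
    have hg2 : B * (M z + c).re + 2 * C * (M z + c).im + E = 0 := by simpa using hg Complex.I
    have hre : (M z + c).re = z.re := by
      have : Δ * ((M z + c).re - z.re) = 0 := by
        rw [hΔd]
        linear_combination 2 * C * (hg1 - hz1) - B * (hg2 - hz2)
      have := (mul_eq_zero.1 this).resolve_left hΔ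
      linarith
    have him : (M z + c).im = z.im := by
      have : Δ * ((M z + c).im - z.im) = 0 := by
        rw [hΔd]
        linear_combination 2 * A * (hg2 - hz2) - B * (hg1 - hz1)
      have := (mul_eq_zero.1 this).resolve_left hΔ
      linarith
    have hfix : M z + c = z := Complex.ext hre him
    have h1 := hT z
    rw [hfix] at h1
    have : (1 - μ) * qd A B C D E F z = 0 := by linear_combination h1
    have := (mul_eq_zero.1 this).resolve_right hf
    linarith

end Pool.Agent.H84.RIG
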