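import Mathlib

/-!
# Quadratic polynomials in the plane: five points
-/

set_option autoImplicit false

namespace Pool.Agent.H84.RIG

open Finset

/-- The cross product. -/
def cr (z w : ℂ) : ℝ := z.re * w.im - z.im * w.re

/-- The scalar product. -/
def dt (z w : ℂ) : ℝ := z.re * w.re + z.im * w.im

/-- The quadratic form `A u² + B u v + C v²`. -/
def qf (A B C : ℝ) (z : ℂ) : ℝ := A * z.re ^ 2 + B * (z.re * z.im) + C * z.im ^ 2

/-- The value of a quadratic polynomial. -/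
def qd (A B C D E F : ℝ) (z : ℂ) : ℝ :=
  A * z.re ^ 2 + B * (z.re * z.im) + C * z.im ^ 2 + D * z.re + E * z.im + F

/-- No three points of `Y` are collinear. -/
def NC (Y : Finset ℂ) : Prop :=
  ∀ a ∈ Y, ∀ b ∈ Y, ∀ c ∈ Y, a ≠ b → a ≠ c → b ≠ c → cr (b - a) (c - a) ≠ 0

/-- A quadratic polynomial that vanishes on a line and at three non-collinear points off the line
is zero. -/
lemma three_off {A B C D E F : ℝ} {z e y₁ y₂ y₃ : ℂ} (he : e ≠ 0)
    (hline : ∀ s : ℝ, qd A B C D E F (z + s * e) = 0)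
    (h1 : cr e (y₁ - z) ≠ 0) (h2 : cr e (y₂ - z) ≠ 0) (h3 : cr e (y₃ - z) ≠ 0)
    (hnc : cr (y₂ - y₁) (y₃ - y₁) ≠ 0)
    (p1 : qd A B C D E F y₁ = 0) (p2 : qd A B C D E F y₂ = 0) (p3 : qd A B C D E F y₃ = 0) :
    A = 0 ∧ B = 0 ∧ C = 0 ∧ D = 0 ∧ E = 0 ∧ F = 0 := by
  set U := e.re with hU
  set W := e.im with hW
  set a := z.re with ha
  set b := z.im with hb
  have hN : 0 < U ^ 2 + W ^ 2 := by
    have : U ≠ 0 ∨ W ≠ 0 := by
      by_contra hc
      push Not at hc
      exact he (Complex.ext hc.1 hc.2)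
    rcases this with h | h <;> positivity
  -- coefficients in the coordinates `s`, `t`
  set A' := A * U ^ 2 + B * U * W + C * W ^ 2 with hA'
  set B' := -2 * A * U * W + B * (U ^ 2 - W ^ 2) + 2 * C * U * W with hB'
  set C' := A * W ^ 2 - B * U * W + C * U ^ 2 with hC'
  set D' := (2 * A * a + B * b + D) * U + (B * a + 2 * C * b + E) * W with hD'
  set E' := -(2 * A * a + B * b + D) * W + (B * a + 2 * C * b + E) * U with hE'
  set F' := A * a ^ 2 + B * (a * b) + C * b ^ 2 + D * a + E * b + F with hF'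
  have hl : ∀ s : ℝ, A' * s ^ 2 + D' * s + F' = 0 := by
    intro s
    have h := hline s
    simp only [qd, Complex.add_re, Complex.add_im, Complex.mul_re, Complex.mul_im,
      Complex.ofReal_re, Complex.ofReal_im, zero_mul, sub_zero, add_zero] at h
    rw [hA', hD', hF', ← h, ← hU, ← hW, ← ha, ← hb]
    ring
  have hF0 : F' = 0 := by simpa using hl 0
  have hA0 : A' = 0 := by linarith [hl 1, hl (-1)]
  have hD0 : D' = 0 := by linarith [hl 1, hl (-1)]
  -- a point off the line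
  have key : ∀ y : ℂ, cr e (y - z) ≠ 0 → qd A B C D E F y = 0 →
      B' * dt e (y - z) + C' * cr e (y - z) + E' * (U ^ 2 + W ^ 2) = 0 := by
    intro y hy hp
    have h1 : (U ^ 2 + W ^ 2) ^ 2 * qd A B C D E F y
        = A' * (dt e (y - z)) ^ 2 + B' * (dt e (y - z) * cr e (y - z))
          + C' * (cr e (y - z)) ^ 2 + D' * dt e (y - z) * (U ^ 2 + W ^ 2)
          + E' * cr e (y - z) * (U ^ 2 + W ^ 2) + F' * (U ^ 2 + W ^ 2) ^ 2 := by
      simp only [qd, cr, dt, Complex.sub_re, Complex.sub_im, hA', hB', hC', hD', hE', hF', ← hU,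
        ← hW, ← ha, ← hb]
      ring
    rw [hp, hA0, hD0, hF0] at h1
    have h2 : cr e (y - z) * (B' * dt e (y - z) + C' * cr e (y - z) + E' * (U ^ 2 + W ^ 2)) = 0 := by
      linear_combination -h1
    exact (mul_eq_zero.1 h2).resolve_left hy
  have k1 := key y₁ h1 p1
  have k2 := key y₂ h2 p2
  have k3 := key y₃ h3 p3
  have hdet : dt e (y₂ - y₁) * cr e (y₃ - y₁) - dt e (y₃ - y₁) * cr e (y₂ - y₁)
      = (U ^ 2 + W ^ 2) * cr (y₂ - y₁) (y₃ - y₁) := by
    simp only [cr, dt, Complex.sub_re, Complex.sub_im, ← hU, ← hW]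
    ring
  have hdne : dt e (y₂ - y₁) * cr e (y₃ - y₁) - dt e (y₃ - y₁) * cr e (y₂ - y₁) ≠ 0 := by
    rw [hdet]
    exact mul_ne_zero hN.ne' hnc
  have d2 : B' * dt e (y₂ - y₁) + C' * cr e (y₂ - y₁) = 0 := by
    have e1 : dt e (y₂ - y₁) = dt e (y₂ - z) - dt e (y₁ - z) := by
      simp only [dt, Complex.sub_re, Complex.sub_im]; ring
    have e2 : cr e (y₂ - y₁) = cr e (y₂ - z) - cr e (y₁ - z) := by
      simp only [cr, Complex.sub_re, Complex.sub_im]; ring
    rw [e1, e2]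
    linear_combination k2 - k1
  have d3 : B' * dt e (y₃ - y₁) + C' * cr e (y₃ - y₁) = 0 := by
    have e1 : dt e (y₃ - y₁) = dt e (y₃ - z) - dt e (y₁ - z) := by
      simp only [dt, Complex.sub_re, Complex.sub_im]; ring
    have e2 : cr e (y₃ - y₁) = cr e (y₃ - z) - cr e (y₁ - z) := by
      simp only [cr, Complex.sub_re, Complex.sub_im]; ring
    rw [e1, e2]
    linear_combination k3 - k1
  have hB0 : B' = 0 := by
    have h : B' * (dt e (y₂ - y₁) * cr e (y₃ - y₁) - dt e (y₃ - y₁) * cr e (y₂ - y₁)) = 0 := by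
      linear_combination cr e (y₃ - y₁) * d2 - cr e (y₂ - y₁) * d3
    exact (mul_eq_zero.1 h).resolve_right hdne
  have hC0 : C' = 0 := by
    have h : C' * (dt e (y₂ - y₁) * cr e (y₃ - y₁) - dt e (y₃ - y₁) * cr e (y₂ - y₁)) = 0 := by
      linear_combination dt e (y₂ - y₁) * d3 - dt e (y₃ - y₁) * d2
    exact (mul_eq_zero.1 h).resolve_right hdne
  have hE0 : E' = 0 := by
    rw [hB0, hC0] at k1
    have : E' * (U ^ 2 + W ^ 2) = 0 := by linarith
    exact (mul_eq_zero.1 this).resolve_right hN.ne'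
  -- back to the old coefficients
  have hN2 : (U ^ 2 + W ^ 2) ^ 2 ≠ 0 := by positivity
  have g1 : (U ^ 2 + W ^ 2) * (A + C) = 0 := by
    linear_combination hA0 + hC0
  have g1' : A + C = 0 := (mul_eq_zero.1 g1).resolve_left hN.ne'
  have g2 : (U ^ 2 + W ^ 2) ^ 2 * B = 0 := by
    linear_combination (U ^ 2 - W ^ 2) * hB0 + 2 * U * W * (hA0 - hC0)
  have g2' : B = 0 := (mul_eq_zero.1 g2).resolve_left hN2
  have g3 : (U ^ 2 + W ^ 2) ^ 2 * (A - C) = 0 := by
    linear_combination (U ^ 2 - W ^ 2) * (hA0 - hC0) - 2 * U * W * hB0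
  have g3' : A - C = 0 := (mul_eq_zero.1 g3).resolve_left hN2
  have hA1 : A = 0 := by linarith
  have hC1 : C = 0 := by linarith
  have g4 : (U ^ 2 + W ^ 2) * D = 0 := by
    have : (2 * A * a + B * b + D) * (U ^ 2 + W ^ 2) = 0 := by
      linear_combination U * hD0 - W * hE0
    rw [hA1, g2'] at this
    linear_combination this
  have g5 : (U ^ 2 + W ^ 2) * E = 0 := by
    have : (B * a + 2 * C * b + E) * (U ^ 2 + W ^ 2) = 0 := by
      linear_combination W * hD0 + U * hE0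
    rw [hC1, g2'] at this
    linear_combination this
  have hD1 : D = 0 := (mul_eq_zero.1 g4).resolve_left hN.ne'
  have hE1 : E = 0 := (mul_eq_zero.1 g5).resolve_left hN.ne'
  refine ⟨hA1, g2', hC1, hD1, hE1, ?_⟩
  rw [hF', hA1, g2', hC1, hD1, hE1] at hF0
  linarith

/-- A quadratic polynomial that vanishes on a line and on a set of at least five points, no three
collinear, is zero. -/
lemma no_line {A B C D E F : ℝ} {Y : Finset ℂ} (hnc : NC Y) (h5 : 5 ≤ Y.card)
    (hY : ∀ y ∈ Y, qd A B C D E F y = 0) {z e : ℂ} (he : e ≠ 0)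
    (hline : ∀ s : ℝ, qd A B C D E F (z + s * e) = 0) :
    A = 0 ∧ B = 0 ∧ C = 0 ∧ D = 0 ∧ E = 0 ∧ F = 0 := by
  classical
  have hN : 0 < e.re ^ 2 + e.im ^ 2 := by
    have : e.re ≠ 0 ∨ e.im ≠ 0 := by
      by_contra hc
      push Not at hc
      exact he (Complex.ext hc.1 hc.2)
    rcases this with h | h <;> positivity
  set On := Y.filter fun y => cr e (y - z) = 0 with hOn
  set Off := Y.filter fun y => ¬ cr e (y - z) = 0 with hOff
  have hsum : On.card + Off.card = Y.card := Finset.card_filter_add_card_filter_not _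
  have hon : ¬ 2 < On.card := by
    intro h
    rw [Finset.two_lt_card] at h
    obtain ⟨a, ha, b, hb, c, hc, hab, hac, hbc⟩ := h
    rw [hOn, Finset.mem_filter] at ha hb hc
    apply hnc a ha.1 b hb.1 c hc.1 hab hac hbc
    have h1 : cr e (b - a) = 0 := by
      have : cr e (b - a) = cr e (b - z) - cr e (a - z) := by
        simp only [cr, Complex.sub_re, Complex.sub_im]; ring
      rw [this, ha.2, hb.2, sub_zero]
    have h2 : cr e (c - a) = 0 := by
      have : cr e (c - a) = cr e (c - z) - cr e (a - z) := by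
        simp only [cr, Complex.sub_re, Complex.sub_im]; ring
      rw [this, ha.2, hc.2, sub_zero]
    have h3 : (e.re ^ 2 + e.im ^ 2) * cr (b - a) (c - a)
        = dt e (b - a) * cr e (c - a) - dt e (c - a) * cr e (b - a) := by
      simp only [cr, dt]; ring
    rw [h1, h2] at h3
    have h4 : (e.re ^ 2 + e.im ^ 2) * cr (b - a) (c - a) = 0 := by rw [h3]; ring
    exact (mul_eq_zero.1 h4).resolve_left hN.ne'
  have hoff : 2 < Off.card := by omega
  rw [Finset.two_lt_card] at hoff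
  obtain ⟨a, ha, b, hb, c, hc, hab, hac, hbc⟩ := hoff
  rw [hOff, Finset.mem_filter] at ha hb hc
  exact three_off he hline ha.2 hb.2 hc.2 (hnc a ha.1 b hb.1 c hc.1 hab hac hbc)
    (hY a ha.1) (hY b hb.1) (hY c hc.1)

/-- Two quadratic polynomials that vanish on a set of at least five points, no three collinear, are
proportional. -/
lemma proportional {A B C D E F A₁ B₁ C₁ D₁ E₁ F₁ : ℝ} {Y : Finset ℂ} (hnc : NC Y)
    (h5 : 5 ≤ Y.card) (hY : ∀ y ∈ Y, qd A B C D E F y = 0)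
    (hY₁ : ∀ y ∈ Y, qd A₁ B₁ C₁ D₁ E₁ F₁ y = 0) (h0 : ¬ (A = 0 ∧ B = 0 ∧ C = 0)) :
    ∃ μ : ℝ, A₁ = μ * A ∧ B₁ = μ * B ∧ C₁ = μ * C ∧ D₁ = μ * D ∧ E₁ = μ * E ∧ F₁ = μ * F := by
  classical
  have h2 : 1 < Y.card := by omega
  rw [Finset.one_lt_card] at h2
  obtain ⟨a, ha, b, hb, hab⟩ := h2
  have he : b - a ≠ 0 := sub_ne_zero.2 (fun h => hab h.symm)
  -- vanishing at a third point of the line
  have key : ∀ A B C D E F : ℝ, (∀ y ∈ Y, qd A B C D E F y = 0) →
      qd A B C D E F (a + ((1 / 2 : ℝ) : ℂ) * (b - a)) = 0 →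
      A = 0 ∧ B = 0 ∧ C = 0 ∧ D = 0 ∧ E = 0 ∧ F = 0 := by
    intro A B C D E F hY hm
    apply no_line hnc h5 hY he (z := a)
    intro s
    have h0' := hY a ha
    have h1' := hY b hb
    simp only [qd, Complex.add_re, Complex.add_im, Complex.mul_re, Complex.mul_im,
      Complex.ofReal_re, Complex.ofReal_im, zero_mul, sub_zero, add_zero, Complex.sub_re,
      Complex.sub_im] at h0' h1' hm ⊢
    linear_combination (4 * s - 4 * s ^ 2) * hm + (1 - 3 * s + 2 * s ^ 2) * h0'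
      + (2 * s ^ 2 - s) * h1'
  set m : ℂ := a + ((1 / 2 : ℝ) : ℂ) * (b - a) with hm
  have hpm : qd A B C D E F m ≠ 0 := by
    intro h
    obtain ⟨k1, k2, k3, -⟩ := key A B C D E F hY h
    exact h0 ⟨k1, k2, k3⟩
  set μ := qd A₁ B₁ C₁ D₁ E₁ F₁ m / qd A B C D E F m with hμ
  have hlin : ∀ y, qd (A₁ - μ * A) (B₁ - μ * B) (C₁ - μ * C) (D₁ - μ * D) (E₁ - μ * E)
      (F₁ - μ * F) y = qd A₁ B₁ C₁ D₁ E₁ F₁ y - μ * qd A B C D E F y := by
    intro y
    simp only [qd]
    ring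
  obtain ⟨k1, k2, k3, k4, k5, k6⟩ := key (A₁ - μ * A) (B₁ - μ * B) (C₁ - μ * C) (D₁ - μ * D)
    (E₁ - μ * E) (F₁ - μ * F) (by
      intro y hy
      rw [hlin, hY y hy, hY₁ y hy]
      ring) (by
      rw [hlin, hμ]
      field_simp
      ring)
  exact ⟨μ, by linarith, by linarith, by linarith, by linarith, by linarith, by linarith⟩

end Pool.Agent.H84.RIG
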